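import Pool.Agent.W543.BK.Defs

/-!
Transformation of the Christoffel symbols and of the curvature under pull-back.
-/

set_option autoImplicit false
set_option synthInstance.maxHeartbeats 400000
set_option maxHeartbeats 4000000
set_option maxSynthPendingDepth 3
set_option linter.unusedSimpArgs false
set_option linter.deprecated false

open scoped BigOperators

noncomputable section

namespace Pool.Agent.W482.BKPull

open Pool.Agent.W543.BK

/-- bilinear forms -/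
abbrev BB := V4 →L[ℝ] V4 →L[ℝ] ℝ

/-- elementary bilinear forms -/
def EE (i j : Fin 4) : BB :=
  (ContinuousLinearMap.proj (R := ℝ) (φ := fun _ : Fin 4 => ℝ) i).smulRight
    (ContinuousLinearMap.proj (R := ℝ) (φ := fun _ : Fin 4 => ℝ) j)

theorem EE_apply (i j : Fin 4) (a b : V4) : EE i j a b = a i * b j := by
  simp [EE]

/-- the metric as a map into bilinear forms -/
def Gb (g : Fin 4 → Fin 4 → V4 → ℝ) (y : V4) : BB := ∑ i, ∑ j, g i j y • EE i j

theorem Gb_apply (g : Fin 4 → Fin 4 → V4 → ℝ) (y a b : V4) :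
    Gb g y a b = ∑ i, ∑ j, g i j y * (a i * b j) := by
  simp only [Gb, sum_apply, smul_apply, EE_apply,
    smul_eq_mul]

theorem Gb_ee (g : Fin 4 → Fin 4 → V4 → ℝ) (y : V4) (i j : Fin 4) :
    Gb g y (ee i) (ee j) = g i j y := by
  rw [Gb_apply, Finset.sum_eq_single i, Finset.sum_eq_single j]
  · simp
  · intro b _ hb
    simp [hb]
  · simp
  · intro b _ hb
    simp [hb]
  · simp

theorem contDiff_Gb {g : Fin 4 → Fin 4 → V4 → ℝ} {n : WithTop ℕ∞}
    (hg : ∀ i j, ContDiff ℝ n (g i j)) : ContDiff ℝ n (Gb g) :=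
  ContDiff.sum fun i _ => ContDiff.sum fun j _ => (hg i j).smul contDiff_const

theorem Gb_symm {g : Fin 4 → Fin 4 → V4 → ℝ} (hs : ∀ i j x, g i j x = g j i x) (y a b : V4) :
    Gb g y a b = Gb g y b a := by
  rw [Gb_apply, Gb_apply, Finset.sum_comm]
  refine Finset.sum_congr rfl fun i _ => Finset.sum_congr rfl fun j _ => ?_
  rw [hs j i]
  ring

/-- evaluation of a bilinear form valued function -/
theorem hasFDerivAt_ap {F : V4 → BB} {F' : V4 →L[ℝ] BB} {x : V4} (h : HasFDerivAt F F' x)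
    (a b : V4) : HasFDerivAt (fun y => F y a b) ((F'.flip a).flip b) x := by
  have h1 := (h.clm_apply (hasFDerivAt_const a x)).clm_apply (hasFDerivAt_const b x)
  refine h1.congr_fderiv ?_
  ext w
  simp

theorem fderiv_ap {F : V4 → BB} {x : V4} (h : DifferentiableAt ℝ F x) (w a b : V4) :
    fderiv ℝ (fun y => F y a b) x w = fderiv ℝ F x w a b := by
  rw [(hasFDerivAt_ap h.hasFDerivAt a b).fderiv]
  simp

section basic

variable {g : Fin 4 → Fin 4 → V4 → ℝ} (hg : ∀ i j, ContDiff ℝ 2 (g i j))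

include hg

theorem diff_Gb (x : V4) : DifferentiableAt ℝ (Gb g) x :=
  ((contDiff_Gb hg).differentiable (by norm_num)).differentiableAt

theorem diff_Gb1 (x : V4) : DifferentiableAt ℝ (fderiv ℝ (Gb g)) x :=
  (((contDiff_Gb hg).fderiv_right (m := 1) (by norm_num)).differentiable
    (by norm_num)).differentiableAt

theorem fderiv_g (i j : Fin 4) (x w : V4) :
    fderiv ℝ (g i j) x w = fderiv ℝ (Gb g) x w (ee i) (ee j) := by
  have h : g i j = fun y => Gb g y (ee i) (ee j) := by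
    funext y
    rw [Gb_ee]
  conv_lhs => rw [h]
  exact fderiv_ap (diff_Gb hg x) w _ _

theorem fderiv2_ap (x w' w a b : V4) :
    fderiv ℝ (fun y => fderiv ℝ (Gb g) y w a b) x w' =
      fderiv ℝ (fderiv ℝ (Gb g)) x w' w a b := by
  have h1 := ((diff_Gb1 hg x).hasFDerivAt.clm_apply (hasFDerivAt_const w x))
  have h2 := hasFDerivAt_ap h1 a b
  rw [h2.fderiv]
  simp

theorem fderiv2_g (i j : Fin 4) (x w w' : V4) :
    fderiv ℝ (fun y => fderiv ℝ (g i j) y w) x w' =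
      fderiv ℝ (fderiv ℝ (Gb g)) x w' w (ee i) (ee j) := by
  have h : (fun y => fderiv ℝ (g i j) y w) = fun y => fderiv ℝ (Gb g) y w (ee i) (ee j) := by
    funext y
    exact fderiv_g hg i j y w
  rw [h]
  exact fderiv2_ap hg x w' w _ _

end basic

/-! ### sums -/

theorem lsum (f : V4 → ℝ) (hf : IsLinearMap ℝ f) (u : V4) : ∑ l, f (ee l) * u l = f u := by
  have h : u = ∑ l, u l • ee l := by
    funext k
    simp [ee, Pi.single_apply]
  conv_rhs => rw [h]
  have h2 := map_sum (hf.mk' f) (fun l => u l • ee l) Finset.univ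
  have h3 : (hf.mk' f) (∑ l, u l • ee l) = f (∑ l, u l • ee l) := rfl
  rw [← h3, h2]
  refine Finset.sum_congr rfl fun l _ => ?_
  rw [map_smul]
  change _ = u l • f (ee l)
  rw [smul_eq_mul]
  ring

theorem sum4 (F : V4 → V4 → V4 → V4 → ℝ) (h1 : ∀ b c d, IsLinearMap ℝ (fun a => F a b c d))
    (h2 : ∀ a c d, IsLinearMap ℝ (fun b => F a b c d))
    (h3 : ∀ a b d, IsLinearMap ℝ (fun c => F a b c d))
    (h4 : ∀ a b c, IsLinearMap ℝ (fun d => F a b c d)) (a b c d : V4) :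
    ∑ i, ∑ k, ∑ l, ∑ m, F (ee i) (ee k) (ee l) (ee m) * a i * b k * c l * d m = F a b c d := by
  rw [← lsum _ (h1 b c d) a]
  refine Finset.sum_congr rfl fun i _ => ?_
  rw [← lsum _ (h2 (ee i) c d) b, Finset.sum_mul]
  refine Finset.sum_congr rfl fun k _ => ?_
  rw [← lsum _ (h3 (ee i) (ee k) d) c, Finset.sum_mul, Finset.sum_mul]
  refine Finset.sum_congr rfl fun l _ => ?_
  rw [← lsum _ (h4 (ee i) (ee k) (ee l)) d, Finset.sum_mul, Finset.sum_mul, Finset.sum_mul]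
  refine Finset.sum_congr rfl fun m _ => ?_
  ring

/-! ### the curvature in terms of multilinear maps -/

/-- Christoffel symbols, first derivative `T` -/
def Ga (T : V4 →L[ℝ] BB) (u v w : V4) : ℝ := (T u v w + T v u w - T w u v) / 2

/-- the second order part -/
def SS (Q : V4 →L[ℝ] V4 →L[ℝ] BB) (a b c d : V4) : ℝ :=
  (Q c b a d + Q d a b c - Q d b a c - Q c a b d) / 2

/-- the pairing of covectors -/
def PP (M : Matrix (Fin 4) (Fin 4) ℝ) (α β : V4 → ℝ) : ℝ :=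
  ∑ a, ∑ b, M⁻¹ a b * (α (ee a) * β (ee b))

/-- the whole expression -/
def RR (M : Matrix (Fin 4) (Fin 4) ℝ) (T : V4 →L[ℝ] BB) (Q : V4 →L[ℝ] V4 →L[ℝ] BB)
    (a b c d : V4) : ℝ :=
  SS Q a b c d + (PP M (Ga T b c) (Ga T a d) - PP M (Ga T b d) (Ga T a c))

theorem PP_add_left (M : Matrix (Fin 4) (Fin 4) ℝ) (α α' β : V4 → ℝ) :
    PP M (α + α') β = PP M α β + PP M α' β := by
  simp only [PP, Pi.add_apply, ← Finset.sum_add_distrib]
  refine Finset.sum_congr rfl fun i _ => Finset.sum_congr rfl fun j _ => ?_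
  ring

theorem PP_add_right (M : Matrix (Fin 4) (Fin 4) ℝ) (α β β' : V4 → ℝ) :
    PP M α (β + β') = PP M α β + PP M α β' := by
  simp only [PP, Pi.add_apply, ← Finset.sum_add_distrib]
  refine Finset.sum_congr rfl fun i _ => Finset.sum_congr rfl fun j _ => ?_
  ring

theorem PP_smul_left (M : Matrix (Fin 4) (Fin 4) ℝ) (t : ℝ) (α β : V4 → ℝ) :
    PP M (t • α) β = t * PP M α β := by
  simp only [PP, Pi.smul_apply, smul_eq_mul, Finset.mul_sum]
  refine Finset.sum_congr rfl fun i _ => Finset.sum_congr rfl fun j _ => ?_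
  ring

theorem PP_smul_right (M : Matrix (Fin 4) (Fin 4) ℝ) (t : ℝ) (α β : V4 → ℝ) :
    PP M α (t • β) = t * PP M α β := by
  simp only [PP, Pi.smul_apply, smul_eq_mul, Finset.mul_sum]
  refine Finset.sum_congr rfl fun i _ => Finset.sum_congr rfl fun j _ => ?_
  ring

section Ga

variable (T : V4 →L[ℝ] BB)

theorem Ga_add_left (u u' v : V4) : Ga T (u + u') v = Ga T u v + Ga T u' v := by
  funext w
  simp only [Ga, Pi.add_apply, map_add, add_apply]
  ring

theorem Ga_smul_left (t : ℝ) (u v : V4) : Ga T (t • u) v = t • Ga T u v := by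
  funext w
  simp only [Ga, Pi.smul_apply, map_smul, smul_apply, smul_eq_mul]
  ring

theorem Ga_add_right (u v v' : V4) : Ga T u (v + v') = Ga T u v + Ga T u v' := by
  funext w
  simp only [Ga, Pi.add_apply, map_add, add_apply]
  ring

theorem Ga_smul_right (t : ℝ) (u v : V4) : Ga T u (t • v) = t • Ga T u v := by
  funext w
  simp only [Ga, Pi.smul_apply, map_smul, smul_apply, smul_eq_mul]
  ring

theorem Ga_lin (u v : V4) : IsLinearMap ℝ (Ga T u v) where
  map_add w w' := by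
    simp only [Ga, map_add, add_apply]
    ring
  map_smul t w := by
    simp only [Ga, map_smul, smul_apply, smul_eq_mul]
    ring

end Ga

section Kn

variable (M : Matrix (Fin 4) (Fin 4) ℝ) (T : V4 →L[ℝ] BB) (Q : V4 →L[ℝ] V4 →L[ℝ] BB)

theorem RR1 (b c d : V4) : IsLinearMap ℝ (fun a => RR M T Q a b c d) where
  map_add w w' := by
    simp only [RR, SS, Ga_add_left, PP_add_right, map_add, add_apply]
    ring
  map_smul t w := by
    simp only [RR, SS, Ga_smul_left, PP_smul_right, map_smul, smul_apply,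
      smul_eq_mul]
    ring

theorem RR2 (a c d : V4) : IsLinearMap ℝ (fun b => RR M T Q a b c d) where
  map_add w w' := by
    simp only [RR, SS, Ga_add_left, PP_add_left, map_add, add_apply]
    ring
  map_smul t w := by
    simp only [RR, SS, Ga_smul_left, PP_smul_left, map_smul, smul_apply,
      smul_eq_mul]
    ring

theorem RR3 (a b d : V4) : IsLinearMap ℝ (fun c => RR M T Q a b c d) where
  map_add w w' := by
    simp only [RR, SS, Ga_add_right, PP_add_left, PP_add_right, map_add,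
      add_apply]
    ring
  map_smul t w := by
    simp only [RR, SS, Ga_smul_right, PP_smul_left, PP_smul_right, map_smul,
      smul_apply, smul_eq_mul]
    ring

theorem RR4 (a b c : V4) : IsLinearMap ℝ (fun d => RR M T Q a b c d) where
  map_add w w' := by
    simp only [RR, SS, Ga_add_right, PP_add_left, PP_add_right, map_add,
      add_apply]
    ring
  map_smul t w := by
    simp only [RR, SS, Ga_smul_right, PP_smul_left, PP_smul_right, map_smul,
      smul_apply, smul_eq_mul]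
    ring

end Kn

/-- the matrix of the metric -/
abbrev Mg (g : Fin 4 → Fin 4 → V4 → ℝ) (x : V4) : Matrix (Fin 4) (Fin 4) ℝ :=
  Matrix.of fun p q => g p q x

theorem Gam_eq {g : Fin 4 → Fin 4 → V4 → ℝ} (hg : ∀ i j, ContDiff ℝ 2 (g i j)) (x : V4)
    (a k l : Fin 4) : Gam g a k l x = Ga (fderiv ℝ (Gb g) x) (ee k) (ee l) (ee a) := by
  rw [Gam, fderiv_g hg, fderiv_g hg, fderiv_g hg, Ga]

theorem Rm_eq {g : Fin 4 → Fin 4 → V4 → ℝ} (hg : ∀ i j, ContDiff ℝ 2 (g i j)) (x : V4)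
    (i k l m : Fin 4) : Rm g i k l m x =
      RR (Mg g x) (fderiv ℝ (Gb g) x) (fderiv ℝ (fderiv ℝ (Gb g)) x)
        (ee i) (ee k) (ee l) (ee m) := by
  rw [Rm, RR, Sec, SS, fderiv2_g hg, fderiv2_g hg, fderiv2_g hg, fderiv2_g hg]
  congr 1
  rw [PP, PP, ← Finset.sum_sub_distrib]
  refine Finset.sum_congr rfl fun a _ => ?_
  rw [← Finset.sum_sub_distrib]
  refine Finset.sum_congr rfl fun b _ => ?_
  rw [Gam_eq hg, Gam_eq hg, Gam_eq hg, Gam_eq hg]
  ring

theorem Kn_eq {g : Fin 4 → Fin 4 → V4 → ℝ} (hg : ∀ i j, ContDiff ℝ 2 (g i j)) (x u v : V4) :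
    Kn g x u v = RR (Mg g x) (fderiv ℝ (Gb g) x) (fderiv ℝ (fderiv ℝ (Gb g)) x) u v u v := by
  rw [Kn, ← sum4 _ (RR1 _ _ _) (RR2 _ _ _) (RR3 _ _ _) (RR4 _ _ _) u v u v]
  refine Finset.sum_congr rfl fun i _ => Finset.sum_congr rfl fun k _ =>
    Finset.sum_congr rfl fun l _ => Finset.sum_congr rfl fun m _ => ?_
  rw [Rm_eq hg]

/-! ### the pulled-back metric -/

section pull

variable {g : Fin 4 → Fin 4 → V4 → ℝ} {φ : V4 → V4}

theorem pull_eq (i j : Fin 4) (x : V4) :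
    pull φ g i j x = Gb g (φ x) (fderiv ℝ φ x (ee i)) (fderiv ℝ φ x (ee j)) := by
  rw [pull, Gb_apply]
  refine Finset.sum_congr rfl fun p _ => Finset.sum_congr rfl fun q _ => ?_
  ring

theorem Gb_pull (y a b : V4) :
    Gb (pull φ g) y a b = Gb g (φ y) (fderiv ℝ φ y a) (fderiv ℝ φ y b) := by
  rw [Gb_apply]
  rw [← lsum (fun a => Gb g (φ y) (fderiv ℝ φ y a) (fderiv ℝ φ y b))
    ⟨fun _ _ => by simp only [map_add, add_apply],
      fun _ _ => by simp only [map_smul, smul_apply]⟩ a]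
  refine Finset.sum_congr rfl fun i _ => ?_
  rw [← lsum (fun b => Gb g (φ y) (fderiv ℝ φ y (ee i)) (fderiv ℝ φ y b))
    ⟨fun _ _ => by simp only [map_add], fun _ _ => by simp only [map_smul]⟩ b, Finset.sum_mul]
  refine Finset.sum_congr rfl fun j _ => ?_
  rw [pull_eq]
  ring

theorem contDiff_pull (hg : ∀ i j, ContDiff ℝ 2 (g i j)) (hφ : ContDiff ℝ 3 φ) (i j : Fin 4) :
    ContDiff ℝ 2 (pull φ g i j) := by
  have h2 : ContDiff ℝ 2 φ := hφ.of_le (by norm_num)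
  have h3 : ContDiff ℝ 2 (fderiv ℝ φ) := hφ.fderiv_right (m := 2) (by norm_num)
  have h4 : ∀ k p : Fin 4, ContDiff ℝ 2 (fun x => fderiv ℝ φ x (ee k) p) := fun k p =>
    (contDiff_pi.1 (h3.clm_apply contDiff_const)) p
  exact ContDiff.sum fun p _ => ContDiff.sum fun q _ =>
    (((hg p q).comp h2).mul (h4 i p)).mul (h4 j q)

theorem sym1 (hφ : ContDiff ℝ 3 φ) (x a b : V4) :
    fderiv ℝ (fderiv ℝ φ) x a b = fderiv ℝ (fderiv ℝ φ) x b a :=
  (hφ.contDiffAt.isSymmSndFDerivAt (by simp; norm_num)).eq a b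

theorem diff1 (hφ : ContDiff ℝ 3 φ) (x : V4) : DifferentiableAt ℝ φ x :=
  (hφ.differentiable (by norm_num)).differentiableAt

theorem diff2 (hφ : ContDiff ℝ 3 φ) (x : V4) : DifferentiableAt ℝ (fderiv ℝ φ) x :=
  ((hφ.fderiv_right (m := 2) (by norm_num)).differentiable (by norm_num)).differentiableAt

theorem diff3 (hφ : ContDiff ℝ 3 φ) (x : V4) : DifferentiableAt ℝ (fderiv ℝ (fderiv ℝ φ)) x :=
  (((hφ.fderiv_right (m := 2) (by norm_num)).fderiv_right (m := 1) (by norm_num)).differentiable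
    (by norm_num)).differentiableAt

theorem sym2 (hφ : ContDiff ℝ 3 φ) (x a b c : V4) :
    fderiv ℝ (fderiv ℝ (fderiv ℝ φ)) x a b c = fderiv ℝ (fderiv ℝ (fderiv ℝ φ)) x b a c := by
  have h := ((hφ.fderiv_right (m := 2) (by norm_num)).contDiffAt (x := x)).isSymmSndFDerivAt
    (by simp)
  rw [h.eq a b]

theorem hasF_ap2 {F : V4 → V4 →L[ℝ] V4 →L[ℝ] V4} {F' : V4 →L[ℝ] V4 →L[ℝ] V4 →L[ℝ] V4} {x : V4}
    (h : HasFDerivAt F F' x) (a b : V4) :
    HasFDerivAt (fun y => F y a b) ((F'.flip a).flip b) x := by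
  have h1 := (h.clm_apply (hasFDerivAt_const a x)).clm_apply (hasFDerivAt_const b x)
  refine h1.congr_fderiv ?_
  ext w
  simp

theorem sym3 (hφ : ContDiff ℝ 3 φ) (x a b c : V4) :
    fderiv ℝ (fderiv ℝ (fderiv ℝ φ)) x a b c = fderiv ℝ (fderiv ℝ (fderiv ℝ φ)) x a c b := by
  have h1 := hasF_ap2 (diff3 hφ x).hasFDerivAt b c
  have h2 := hasF_ap2 (diff3 hφ x).hasFDerivAt c b
  have h3 : (fun y => fderiv ℝ (fderiv ℝ φ) y b c) = fun y => fderiv ℝ (fderiv ℝ φ) y c b := by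
    funext y
    exact sym1 hφ y b c
  rw [h3] at h1
  have h4 := congrArg (fun L => L a) (h1.unique h2)
  simpa using h4

/-- derivative of the pulled-back metric -/
theorem T_pull (hg : ∀ i j, ContDiff ℝ 2 (g i j)) (hφ : ContDiff ℝ 3 φ) (y w a b : V4) :
    fderiv ℝ (Gb (pull φ g)) y w a b =
      fderiv ℝ (Gb g) (φ y) (fderiv ℝ φ y w) (fderiv ℝ φ y a) (fderiv ℝ φ y b) +
      Gb g (φ y) (fderiv ℝ (fderiv ℝ φ) y w a) (fderiv ℝ φ y b) +
      Gb g (φ y) (fderiv ℝ φ y a) (fderiv ℝ (fderiv ℝ φ) y w b) := by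
  rw [← fderiv_ap (diff_Gb (contDiff_pull hg hφ) y)]
  have h0 : (fun y => Gb (pull φ g) y a b) =
      fun y => Gb g (φ y) (fderiv ℝ φ y a) (fderiv ℝ φ y b) := by
    funext y
    exact Gb_pull y a b
  rw [h0]
  have h1 : HasFDerivAt (fun y => Gb g (φ y)) _ y :=
    (diff_Gb hg (φ y)).hasFDerivAt.comp y (diff1 hφ y).hasFDerivAt
  have h2 := fun c => (diff2 hφ y).hasFDerivAt.clm_apply (hasFDerivAt_const c y)
  have h3 := (h1.clm_apply (h2 a)).clm_apply (h2 b)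
  rw [h3.fderiv]
  simp
  ring

/-- second derivative of the pulled-back metric -/
theorem Q_pull (hg : ∀ i j, ContDiff ℝ 2 (g i j)) (hφ : ContDiff ℝ 3 φ) (x c w a b : V4) :
    fderiv ℝ (fderiv ℝ (Gb (pull φ g))) x c w a b =
      (fderiv ℝ (fderiv ℝ (Gb g)) (φ x) (fderiv ℝ φ x c) (fderiv ℝ φ x w) (fderiv ℝ φ x a)
        (fderiv ℝ φ x b) +
      fderiv ℝ (Gb g) (φ x) (fderiv ℝ (fderiv ℝ φ) x c w) (fderiv ℝ φ x a) (fderiv ℝ φ x b) +
      fderiv ℝ (Gb g) (φ x) (fderiv ℝ φ x w) (fderiv ℝ (fderiv ℝ φ) x c a) (fderiv ℝ φ x b) +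
      fderiv ℝ (Gb g) (φ x) (fderiv ℝ φ x w) (fderiv ℝ φ x a) (fderiv ℝ (fderiv ℝ φ) x c b)) +
      (fderiv ℝ (Gb g) (φ x) (fderiv ℝ φ x c) (fderiv ℝ (fderiv ℝ φ) x w a) (fderiv ℝ φ x b) +
      Gb g (φ x) (fderiv ℝ (fderiv ℝ (fderiv ℝ φ)) x c w a) (fderiv ℝ φ x b) +
      Gb g (φ x) (fderiv ℝ (fderiv ℝ φ) x w a) (fderiv ℝ (fderiv ℝ φ) x c b)) +
      (fderiv ℝ (Gb g) (φ x) (fderiv ℝ φ x c) (fderiv ℝ φ x a) (fderiv ℝ (fderiv ℝ φ) x w b) +
      Gb g (φ x) (fderiv ℝ (fderiv ℝ φ) x c a) (fderiv ℝ (fderiv ℝ φ) x w b) +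
      Gb g (φ x) (fderiv ℝ φ x a) (fderiv ℝ (fderiv ℝ (fderiv ℝ φ)) x c w b)) := by
  rw [← fderiv2_ap (contDiff_pull hg hφ)]
  have h0 : (fun y => fderiv ℝ (Gb (pull φ g)) y w a b) = fun y =>
      fderiv ℝ (Gb g) (φ y) (fderiv ℝ φ y w) (fderiv ℝ φ y a) (fderiv ℝ φ y b) +
      Gb g (φ y) (fderiv ℝ (fderiv ℝ φ) y w a) (fderiv ℝ φ y b) +
      Gb g (φ y) (fderiv ℝ φ y a) (fderiv ℝ (fderiv ℝ φ) y w b) := by
    funext y
    exact T_pull hg hφ y w a b
  rw [h0]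
  have hG : HasFDerivAt (fun y => Gb g (φ y)) _ x :=
    (diff_Gb hg (φ x)).hasFDerivAt.comp x (diff1 hφ x).hasFDerivAt
  have hT : HasFDerivAt (fun y => fderiv ℝ (Gb g) (φ y)) _ x :=
    (diff_Gb1 hg (φ x)).hasFDerivAt.comp x (diff1 hφ x).hasFDerivAt
  have hA := fun c => (diff2 hφ x).hasFDerivAt.clm_apply (hasFDerivAt_const c x)
  have hAA := fun c d => hasF_ap2 (diff3 hφ x).hasFDerivAt c d
  have k1 := ((hT.clm_apply (hA w)).clm_apply (hA a)).clm_apply (hA b)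
  have k2 := (hG.clm_apply (hAA w a)).clm_apply (hA b)
  have k3 := (hG.clm_apply (hA a)).clm_apply (hAA w b)
  have k4 := (k1.add k2).add k3
  have k5 := congrArg (fun L => L c) k4.fderiv
  refine k5.trans ?_
  simp
  ring

theorem T_symm (hg : ∀ i j, ContDiff ℝ 2 (g i j)) (hs : ∀ i j x, g i j x = g j i x)
    (y w a b : V4) : fderiv ℝ (Gb g) y w a b = fderiv ℝ (Gb g) y w b a := by
  rw [← fderiv_ap (diff_Gb hg y), ← fderiv_ap (diff_Gb hg y)]
  congr 2
  funext z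
  exact Gb_symm hs z a b

/-- Christoffel symbols of the pulled-back metric -/
theorem Ga_pull (hg : ∀ i j, ContDiff ℝ 2 (g i j)) (hs : ∀ i j x, g i j x = g j i x)
    (hφ : ContDiff ℝ 3 φ) (x u v w : V4) :
    Ga (fderiv ℝ (Gb (pull φ g)) x) u v w =
      Ga (fderiv ℝ (Gb g) (φ x)) (fderiv ℝ φ x u) (fderiv ℝ φ x v) (fderiv ℝ φ x w) +
      Gb g (φ x) (fderiv ℝ (fderiv ℝ φ) x u v) (fderiv ℝ φ x w) := by
  rw [Ga, Ga, T_pull hg hφ, T_pull hg hφ, T_pull hg hφ, sym1 hφ x w u, sym1 hφ x w v,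
    sym1 hφ x v u, Gb_symm hs (φ x) (fderiv ℝ φ x v) (fderiv ℝ (fderiv ℝ φ) x u w),
    Gb_symm hs (φ x) (fderiv ℝ φ x u) (fderiv ℝ (fderiv ℝ φ) x v w)]
  ring

/-- the second order part -/
theorem SS_pull (hg : ∀ i j, ContDiff ℝ 2 (g i j)) (hs : ∀ i j x, g i j x = g j i x)
    (hφ : ContDiff ℝ 3 φ) (x u v : V4) :
    SS (fderiv ℝ (fderiv ℝ (Gb (pull φ g))) x) u v u v =
      SS (fderiv ℝ (fderiv ℝ (Gb g)) (φ x)) (fderiv ℝ φ x u) (fderiv ℝ φ x v)
        (fderiv ℝ φ x u) (fderiv ℝ φ x v) -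
      2 * Ga (fderiv ℝ (Gb g) (φ x)) (fderiv ℝ φ x u) (fderiv ℝ φ x v)
        (fderiv ℝ (fderiv ℝ φ) x u v) +
      Ga (fderiv ℝ (Gb g) (φ x)) (fderiv ℝ φ x u) (fderiv ℝ φ x u)
        (fderiv ℝ (fderiv ℝ φ) x v v) +
      Ga (fderiv ℝ (Gb g) (φ x)) (fderiv ℝ φ x v) (fderiv ℝ φ x v)
        (fderiv ℝ (fderiv ℝ φ) x u u) +
      Gb g (φ x) (fderiv ℝ (fderiv ℝ φ) x u u) (fderiv ℝ (fderiv ℝ φ) x v v) -
      Gb g (φ x) (fderiv ℝ (fderiv ℝ φ) x u v) (fderiv ℝ (fderiv ℝ φ) x u v) := by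
  rw [SS, SS, Q_pull hg hφ, Q_pull hg hφ, Q_pull hg hφ, Q_pull hg hφ]
  generalize hU : fderiv ℝ φ x u = U
  generalize hV : fderiv ℝ φ x v = V
  rw [sym1 hφ x v u]
  generalize huu : fderiv ℝ (fderiv ℝ φ) x u u = uu
  generalize huv : fderiv ℝ (fderiv ℝ φ) x u v = uv
  generalize hvv : fderiv ℝ (fderiv ℝ φ) x v v = vv
  rw [sym2 hφ x v u v, sym3 hφ x u v u, sym2 hφ x v u u, sym3 hφ x v v u, sym2 hφ x v u v,
    sym3 hφ x u v u]
  generalize hA : fderiv ℝ (fderiv ℝ (fderiv ℝ φ)) x u u v = A3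
  generalize hB : fderiv ℝ (fderiv ℝ (fderiv ℝ φ)) x u v v = B3
  rw [Ga, Ga, Ga]
  have e1 := T_symm hg hs (φ x) V uu V
  have e2 := T_symm hg hs (φ x) U vv U
  have e3 := T_symm hg hs (φ x) uv V U
  have e4 := T_symm hg hs (φ x) U uv V
  have e5 := T_symm hg hs (φ x) V uv U
  have e6 := Gb_symm hs (φ x) B3 U
  have e7 := Gb_symm hs (φ x) A3 V
  have e8 := Gb_symm hs (φ x) vv uu
  linarith

/-! ### the inverse matrix -/

/-- the vector of a covector -/
def cvec (α : V4 → ℝ) : Fin 4 → ℝ := fun a => α (ee a)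

theorem PP_eq (M : Matrix (Fin 4) (Fin 4) ℝ) (α β : V4 → ℝ) :
    PP M α β = cvec α ⬝ᵥ (M⁻¹.mulVec (cvec β)) := by
  simp only [PP, dotProduct, Matrix.mulVec, cvec, Finset.mul_sum]
  refine Finset.sum_congr rfl fun i _ => Finset.sum_congr rfl fun j _ => ?_
  ring

/-- the matrix of the differential -/
def Am (L : V4 →L[ℝ] V4) : Matrix (Fin 4) (Fin 4) ℝ := Matrix.of fun p i => L (ee i) p

theorem cvec_comp (L : V4 →L[ℝ] V4) {α : V4 → ℝ} (hα : IsLinearMap ℝ α) :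
    cvec (fun w => α (L w)) = (Am L).transpose.mulVec (cvec α) := by
  funext a
  simp only [cvec, Matrix.mulVec, dotProduct, Matrix.transpose_apply, Am, Matrix.of_apply]
  rw [← lsum α hα]
  refine Finset.sum_congr rfl fun i _ => ?_
  ring

theorem isUnit_Am {L : V4 →L[ℝ] V4} (hL : Function.Injective L) : IsUnit (Am L).det := by
  have h1 : Am L = LinearMap.toMatrix' (L : V4 →ₗ[ℝ] V4) := by
    ext p i
    rw [LinearMap.toMatrix'_apply]
    simp only [Am, Matrix.of_apply]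
    congr 1
  rw [h1, LinearMap.det_toMatrix']
  have h2 : IsUnit (L : V4 →ₗ[ℝ] V4) := (LinearMap.isUnit_iff_ker_eq_bot _).2
    (LinearMap.ker_eq_bot.2 hL)
  exact h2.map LinearMap.det

theorem Mg_pull (x : V4) : Mg (pull φ g) x =
    (Am (fderiv ℝ φ x)).transpose * Mg g (φ x) * Am (fderiv ℝ φ x) := by
  ext i j
  simp only [Matrix.of_apply, Matrix.mul_apply, Matrix.transpose_apply, Am]
  rw [pull, Finset.sum_comm]
  refine Finset.sum_congr rfl fun q _ => ?_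
  rw [Finset.sum_mul]
  refine Finset.sum_congr rfl fun p _ => ?_
  ring

theorem PP_pull {x : V4} (hL : Function.Injective (fderiv ℝ φ x)) {α β : V4 → ℝ}
    (hα : IsLinearMap ℝ α) (hβ : IsLinearMap ℝ β) :
    PP (Mg (pull φ g) x) (fun w => α (fderiv ℝ φ x w)) (fun w => β (fderiv ℝ φ x w)) =
      PP (Mg g (φ x)) α β := by
  have hu := isUnit_Am hL
  have hut : IsUnit (Am (fderiv ℝ φ x)).transpose.det := by
    rw [Matrix.det_transpose]
    exact hu
  rw [PP_eq, PP_eq, cvec_comp _ hα, cvec_comp _ hβ, Mg_pull, Matrix.mul_inv_rev,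
    Matrix.mul_inv_rev, Matrix.mulVec_mulVec, Matrix.mulVec_transpose,
    ← Matrix.dotProduct_mulVec, Matrix.mulVec_mulVec]
  congr 2
  rw [Matrix.mul_assoc, Matrix.mul_assoc, Matrix.nonsing_inv_mul _ hut, Matrix.mul_one,
    ← Matrix.mul_assoc, Matrix.mul_nonsing_inv _ hu, Matrix.one_mul]

theorem PP_G_left {y : V4} (hM : IsUnit (Mg g y).det) (c : V4) {β : V4 → ℝ}
    (hβ : IsLinearMap ℝ β) : PP (Mg g y) (fun w => Gb g y c w) β = β c := by
  have h1 : cvec (fun w => Gb g y c w) = (Mg g y).vecMul c := by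
    funext a
    simp only [cvec, Matrix.vecMul, dotProduct, Matrix.of_apply]
    rw [← lsum (fun c => Gb g y c (ee a)) ⟨fun _ _ => by simp only [map_add, add_apply],
      fun _ _ => by simp only [map_smul, smul_apply]⟩ c]
    refine Finset.sum_congr rfl fun i _ => ?_
    rw [Gb_ee]
    ring
  rw [PP_eq, h1, ← Matrix.dotProduct_mulVec, Matrix.mulVec_mulVec, Matrix.mul_nonsing_inv _ hM,
    Matrix.one_mulVec, ← lsum β hβ c]
  simp only [dotProduct, cvec]
  refine Finset.sum_congr rfl fun i _ => ?_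
  ring

theorem PP_symm (hs : ∀ i j x, g i j x = g j i x) (y : V4) (α β : V4 → ℝ) :
    PP (Mg g y) α β = PP (Mg g y) β α := by
  have h : (Mg g y).transpose = Mg g y := by
    ext i j
    simp only [Matrix.transpose_apply, Matrix.of_apply]
    exact hs j i y
  have h2 : ((Mg g y)⁻¹).transpose = (Mg g y)⁻¹ := by
    rw [Matrix.transpose_nonsing_inv, h]
  rw [PP, PP, Finset.sum_comm]
  refine Finset.sum_congr rfl fun i _ => Finset.sum_congr rfl fun j _ => ?_
  have h3 : (Mg g y)⁻¹ j i = (Mg g y)⁻¹ i j := by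
    conv_lhs => rw [← h2]
    rfl
  rw [h3]
  ring

/-- **transformation of the Christoffel symbols** -/
theorem taskGam : TaskGam := by
  intro g φ hg hs hφ x a k l
  rw [Gam_eq (contDiff_pull hg hφ), Ga_pull hg hs hφ]
  congr 1
  · rw [← lsum (fun w => Ga (fderiv ℝ (Gb g) (φ x)) (fderiv ℝ φ x (ee k)) (fderiv ℝ φ x (ee l)) w)
      (Ga_lin _ _ _) (fderiv ℝ φ x (ee a))]
    refine Finset.sum_congr rfl fun p _ => ?_
    rw [← lsum (fun v => Ga (fderiv ℝ (Gb g) (φ x)) v (fderiv ℝ φ x (ee l)) (ee p))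
      ⟨fun _ _ => by simp only [Ga_add_left, Pi.add_apply],
        fun _ _ => by simp only [Ga_smul_left, Pi.smul_apply]⟩ (fderiv ℝ φ x (ee k)),
      Finset.sum_mul]
    refine Finset.sum_congr rfl fun q _ => ?_
    rw [← lsum (fun v => Ga (fderiv ℝ (Gb g) (φ x)) (ee q) v (ee p))
      ⟨fun _ _ => by simp only [Ga_add_right, Pi.add_apply],
        fun _ _ => by simp only [Ga_smul_right, Pi.smul_apply]⟩ (fderiv ℝ φ x (ee l)),
      Finset.sum_mul, Finset.sum_mul]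
    refine Finset.sum_congr rfl fun r _ => ?_
    rw [Gam_eq hg]
    ring
  · rw [Gb_symm hs, Gb_apply]
    have h0 : fderiv ℝ (fun y => fderiv ℝ φ y (ee k)) x (ee l) =
        fderiv ℝ (fderiv ℝ φ) x (ee k) (ee l) := by
      have h1 := (diff2 hφ x).hasFDerivAt.clm_apply (hasFDerivAt_const (ee k) x)
      rw [h1.fderiv]
      simp only [ContinuousLinearMap.comp_zero, zero_add, ContinuousLinearMap.flip_apply]
      exact sym1 hφ x _ _
    rw [h0]
    refine Finset.sum_congr rfl fun p _ => Finset.sum_congr rfl fun q _ => ?_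
    ring

/-- **transformation of the curvature** -/
theorem taskPull : TaskPull := by
  intro g φ hg hs hφ x hM hL u v
  rw [Kn_eq (contDiff_pull hg hφ), Kn_eq hg, RR, RR, SS_pull hg hs hφ]
  have hsp : ∀ i j y, pull φ g i j y = pull φ g j i y := by
    intro i j y
    rw [pull_eq, pull_eq, Gb_symm hs]
  have hGa : ∀ a b : V4, Ga (fderiv ℝ (Gb (pull φ g)) x) a b = fun w =>
      (Ga (fderiv ℝ (Gb g) (φ x)) (fderiv ℝ φ x a) (fderiv ℝ φ x b) +
        fun w => Gb g (φ x) (fderiv ℝ (fderiv ℝ φ) x a b) w) (fderiv ℝ φ x w) := by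
    intro a b
    funext w
    rw [Ga_pull hg hs hφ]
    rfl
  have hlG : ∀ c : V4, IsLinearMap ℝ (fun w => Gb g (φ x) c w) := fun c =>
    ⟨fun _ _ => by simp only [map_add], fun _ _ => by simp only [map_smul]⟩
  have hl : ∀ a b : V4, IsLinearMap ℝ
      (Ga (fderiv ℝ (Gb g) (φ x)) (fderiv ℝ φ x a) (fderiv ℝ φ x b) +
        fun w => Gb g (φ x) (fderiv ℝ (fderiv ℝ φ) x a b) w) := by
    intro a b
    have h1 := Ga_lin (fderiv ℝ (Gb g) (φ x)) (fderiv ℝ φ x a) (fderiv ℝ φ x b)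
    have h2 := hlG (fderiv ℝ (fderiv ℝ φ) x a b)
    refine ⟨fun w w' => ?_, fun t w => ?_⟩
    · simp only [Pi.add_apply, h1.map_add, map_add]
      ring
    · simp only [Pi.add_apply, h1.map_smul, map_smul, smul_eq_mul]
      ring
  have hPG : ∀ (c : V4) {β : V4 → ℝ}, IsLinearMap ℝ β →
      PP (Mg g (φ x)) β (fun w => Gb g (φ x) c w) = β c := by
    intro c β hβ
    rw [PP_symm hs, PP_G_left hM c hβ]
  have hsG : ∀ a b : V4, Ga (fderiv ℝ (Gb g) (φ x)) a b = Ga (fderiv ℝ (Gb g) (φ x)) b a := by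
    intro a b
    funext w
    rw [Ga, Ga, T_symm hg hs (φ x) w a b]
    ring
  rw [hGa v u, hGa u v, hGa v v, hGa u u, PP_pull hL (hl v u) (hl u v), PP_pull hL (hl v v) (hl u u)]
  rw [sym1 hφ x v u, hsG (fderiv ℝ φ x v) (fderiv ℝ φ x u)]
  generalize fderiv ℝ φ x u = U
  generalize fderiv ℝ φ x v = V
  generalize fderiv ℝ (fderiv ℝ φ) x u u = uu
  generalize fderiv ℝ (fderiv ℝ φ) x u v = uv
  generalize fderiv ℝ (fderiv ℝ φ) x v v = vv
  rw [PP_add_left, PP_add_right, PP_add_right, PP_add_left, PP_add_right, PP_add_right,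
    PP_G_left hM uv (Ga_lin _ _ _), PP_G_left hM uv (hlG _), hPG uv (Ga_lin _ _ _),
    PP_G_left hM vv (Ga_lin _ _ _), PP_G_left hM vv (hlG _), hPG uu (Ga_lin _ _ _),
    Gb_symm hs (φ x) uu vv]
  ring

end pull

end Pool.Agent.W482.BKPull
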